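import Mathlib
import Pool.Agent.NBody.Ends2

/-!
# Nonwandering points of the N-body problem: the distance to the wandering set

For bodies of given positive masses there is a constant `C` such that for every negative energy
`E` and every smooth positive time change making the centre-of-mass-reduced flow on the energy
surface complete: for every state `x = (q, p)`, all different bodies `a`, `b`, `c` and every scale
`η` such that `a` and `b` are within `η` of each other and `c` either is within `η` of both or has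
`|p_c| ^ 2 ≥ 1 / η`, and the size `ρ = (∑ m_i |q_i| ^ 2) ^ (1/2)`, there is a wandering state of the
same energy surface within `C d` in every position and within `C |E| √d` in every momentum,
`d = min (1 / |E|, η, 1 / (E ^ 2 ρ))`, and all the states of the energy surface within `d / C` of it
in every position and `|E| √d / C` in every momentum are wandering; if `η ≤ 1 / (C |E|)` and
`η ≤ 1 / (E ^ 2 ρ)`, the momenta are not changed.
-/

set_option autoImplicit false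
open Topology

namespace Pool.Agent.Results.MP_70f7a7_an.EndsTheorem

theorem result :
    ∀ (N : ℕ) (m : Fin N → ℝ), (∀ i, 0 < m i) → ∃ C : ℝ, 0 < C ∧
      ∀ (E : ℝ), E < 0 → ∀
        (S : Set ((Fin N → EuclideanSpace ℝ (Fin 3)) × (Fin N → EuclideanSpace ℝ (Fin 3)))),
      S = {x : (Fin N → EuclideanSpace ℝ (Fin 3)) × (Fin N → EuclideanSpace ℝ (Fin 3)) |
            (∀ i j, i ≠ j → x.1 i ≠ x.1 j) ∧ ∑ i, m i • x.1 i = 0 ∧ ∑ i, x.2 i = 0 ∧
            ∑ i, ‖x.2 i‖ ^ 2 / (2 * m i) - ∑ i, ∑ j, m i * m j / ‖x.1 i - x.1 j‖ / 2 = E} →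
      ∀ (ψ : (Fin N → EuclideanSpace ℝ (Fin 3)) × (Fin N → EuclideanSpace ℝ (Fin 3)) → ℝ)
        (φ : ℝ → (Fin N → EuclideanSpace ℝ (Fin 3)) × (Fin N → EuclideanSpace ℝ (Fin 3)) →
              (Fin N → EuclideanSpace ℝ (Fin 3)) × (Fin N → EuclideanSpace ℝ (Fin 3))),
      ContDiffOn ℝ ((⊤ : ℕ∞) : WithTop ℕ∞) ψ
        {x : (Fin N → EuclideanSpace ℝ (Fin 3)) × (Fin N → EuclideanSpace ℝ (Fin 3)) |
          ∀ i j, i ≠ j → x.1 i ≠ x.1 j} →
      (∀ x : (Fin N → EuclideanSpace ℝ (Fin 3)) × (Fin N → EuclideanSpace ℝ (Fin 3)),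
        (∀ i j, i ≠ j → x.1 i ≠ x.1 j) → 0 < ψ x) →
      (∀ x ∈ S, φ 0 x = x ∧ ∀ t : ℝ, φ t x ∈ S ∧
        HasDerivAt (fun s : ℝ => φ s x)
          (ψ (φ t x) • ((fun i => (m i)⁻¹ • (φ t x).2 i),
            (fun i => ∑ j, (m i * m j / ‖(φ t x).1 j - (φ t x).1 i‖ ^ 3) •
              ((φ t x).1 j - (φ t x).1 i)))) t) →
      ∀ x ∈ S, ∀ a b c : Fin N, a ≠ b → b ≠ c → a ≠ c → ∀ η ρ d : ℝ,
        ‖x.1 a - x.1 b‖ ≤ η →
        (‖x.1 a - x.1 c‖ ≤ η ∧ ‖x.1 b - x.1 c‖ ≤ η) ∨ 1 ≤ η * ‖x.2 c‖ ^ 2 →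
        ρ = √(∑ i, m i * ‖x.1 i‖ ^ 2) →
        d = min (1 / |E|) (min η (1 / (E ^ 2 * ρ))) →
        ∃ y ∈ S,
          (∀ i, ‖y.1 i - x.1 i‖ ≤ C * d) ∧
          (∀ i, ‖y.2 i - x.2 i‖ ≤ C * |E| * √d) ∧
          (η ≤ 1 / (C * |E|) → η ≤ 1 / (E ^ 2 * ρ) → y.2 = x.2) ∧
          ∀ z ∈ S, (∀ i, ‖z.1 i - y.1 i‖ ≤ d / C) → (∀ i, ‖z.2 i - y.2 i‖ ≤ |E| * √d / C) →
            ∃ V : Set ((Fin N → EuclideanSpace ℝ (Fin 3)) × (Fin N → EuclideanSpace ℝ (Fin 3))),
              IsOpen V ∧ z ∈ V ∧ ∃ T : ℝ, ∀ t : ℝ, T < t → ∀ w ∈ V ∩ S, φ t w ∉ V := by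
  intro N m hm
  by_cases hN : 3 ≤ N
  swap
  · refine ⟨1, one_pos, ?_⟩
    intro E hE S hS ψ φ hψ hψpos hφ x hx a b c hab hbc hac
    exfalso
    have h1 : ({a, b, c} : Finset (Fin N)).card = 3 := Finset.card_eq_three.mpr
      ⟨a, b, c, hab, hac, hbc, rfl⟩
    have h2 := Finset.card_le_univ ({a, b, c} : Finset (Fin N))
    rw [h1, Fintype.card_fin] at h2
    exact hN h2
  obtain ⟨C, hC, H⟩ := Pool.Agent.NBody.dist_wandering N m hm hN
  refine ⟨C, hC, ?_⟩
  intro E hE S hS ψ φ hψ hψpos hφ x hx a b c hab hbc hac η ρ d hη hc hρ hd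
  have hset : Pool.Agent.NBody.Setting m S ψ φ :=
    { sub := fun y hy => by rw [hS] at hy; exact hy.1
      mom := fun y hy => by rw [hS] at hy; exact hy.2.2.1
      com := fun y hy => by rw [hS] at hy; exact hy.2.1
      smooth := hψ.of_le (by exact_mod_cast le_top)
      pos := hψpos
      flow := hφ }
  refine H E hE S ψ φ hset (fun y => by rw [hS]; exact Iff.rfl) x hx η ρ d ?_ hρ hd
  rcases hc with ⟨h1, h2⟩ | h1
  · exact Or.inl ⟨a, b, c, hab, hbc, hac, hη, h2, h1⟩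
  · refine Or.inr ⟨a, b, {c}, hab, ?_, hη, ?_⟩
    · rw [Finset.mem_singleton, Finset.mem_singleton]
      exact ⟨fun h => absurd h hac, fun h => absurd h hbc⟩
    · rw [Finset.sum_singleton]
      exact h1

end Pool.Agent.Results.MP_70f7a7_an.EndsTheorem
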