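import Mathlib
import Pool.Agent.NBody.ThWhole4

/-!
# Nonwandering points of the N-body problem: many bodies, arbitrary masses, all states

Total mass `1`, gravitational constant `1`. There is `N₀` such that for every number `N ≥ N₀` of
bodies, all masses `m_i ≥ exp (-N ^ (1/3600))` with `∑ m_i = 1`, every energy `E < 0` and every
smooth positive time change making the centre-of-mass-reduced flow on the energy surface complete:
EVERY state of the energy surface has a wandering state of the same energy surface within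
`N ^ (-1/3600) * max 1 (1 / |E|)` in the position and within `N ^ (-1/3600)` in the velocity of
every body.
-/

set_option autoImplicit false
open Topology

namespace Pool.Agent.Results.MP_70f7a7_an.ManyBodies

theorem result :
    ∃ N₀ : ℕ, ∀ N : ℕ, N₀ ≤ N → ∀ m : Fin N → ℝ, ∑ i, m i = 1 →
      (∀ i, Real.exp (-(N : ℝ) ^ (1 / 3600 : ℝ)) ≤ m i) → ∀ E : ℝ, E < 0 →
      ∀ (S : Set ((Fin N → EuclideanSpace ℝ (Fin 3)) × (Fin N → EuclideanSpace ℝ (Fin 3)))),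
      S = {x : (Fin N → EuclideanSpace ℝ (Fin 3)) × (Fin N → EuclideanSpace ℝ (Fin 3)) |
            (∀ i j, i ≠ j → x.1 i ≠ x.1 j) ∧ ∑ i, m i • x.1 i = 0 ∧ ∑ i, x.2 i = 0 ∧
            ∑ i, ‖x.2 i‖ ^ 2 / (2 * m i) - ∑ i, ∑ j, m i * m j / ‖x.1 i - x.1 j‖ / 2 = E} →
      ∀ (ψ : (Fin N → EuclideanSpace ℝ (Fin 3)) × (Fin N → EuclideanSpace ℝ (Fin 3)) → ℝ)
        (φ : ℝ → (Fin N → EuclideanSpace ℝ (Fin 3)) × (Fin N → EuclideanSpace ℝ (Fin 3)) →
              (Fin N → EuclideanSpace ℝ (Fin 3)) × (Fin N → EuclideanSpace ℝ (Fin 3))),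
      ContDiffOn ℝ ((⊤ : ℕ∞) : WithTop ℕ∞) ψ
        {x : (Fin N → EuclideanSpace ℝ (Fin 3)) × (Fin N → EuclideanSpace ℝ (Fin 3)) |
          ∀ i j, i ≠ j → x.1 i ≠ x.1 j} →
      (∀ x : (Fin N → EuclideanSpace ℝ (Fin 3)) × (Fin N → EuclideanSpace ℝ (Fin 3)),
        (∀ i j, i ≠ j → x.1 i ≠ x.1 j) → 0 < ψ x) →
      (∀ x ∈ S, φ 0 x = x ∧ ∀ t : ℝ, φ t x ∈ S ∧
        HasDerivAt (fun s : ℝ => φ s x)
          (ψ (φ t x) • ((fun i => (m i)⁻¹ • (φ t x).2 i),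
            (fun i => ∑ j, (m i * m j / ‖(φ t x).1 j - (φ t x).1 i‖ ^ 3) •
              ((φ t x).1 j - (φ t x).1 i)))) t) →
      ∀ x ∈ S, ∃ y ∈ S,
        (∃ W : Set ((Fin N → EuclideanSpace ℝ (Fin 3)) × (Fin N → EuclideanSpace ℝ (Fin 3))),
          IsOpen W ∧ y ∈ W ∧ ∃ T : ℝ, ∀ t : ℝ, T < t → ∀ z ∈ W ∩ S, φ t z ∉ W) ∧
        (∀ i, ‖y.1 i - x.1 i‖ ≤ (N : ℝ) ^ (-(1 / 3600) : ℝ) * max 1 (1 / |E|)) ∧
        (∀ i, ‖(m i)⁻¹ • y.2 i - (m i)⁻¹ • x.2 i‖ ≤ (N : ℝ) ^ (-(1 / 3600) : ℝ)) := by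
  obtain ⟨N₀, H⟩ := Pool.Agent.NBody.whole4_surface
  refine ⟨N₀, ?_⟩
  intro N hN m hm1 hmX E hE S hS ψ φ hψ hψpos hφ x hx
  have hset : Pool.Agent.NBody.Setting m S ψ φ :=
    { sub := fun y hy => by rw [hS] at hy; exact hy.1
      mom := fun y hy => by rw [hS] at hy; exact hy.2.2.1
      com := fun y hy => by rw [hS] at hy; exact hy.2.1
      smooth := hψ.of_le (by exact_mod_cast le_top)
      pos := hψpos
      flow := hφ }
  exact H N hN m hm1 hmX E hE S ψ φ hset (fun y => by rw [hS]; exact Iff.rfl) x hx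

end Pool.Agent.Results.MP_70f7a7_an.ManyBodies
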