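import Mathlib
import Pool.Agent.NBody.Virial
import Pool.Agent.NBody.En13

/-!
# A priori bounds for nonwandering orbits of the N-body problem

For the centre-of-mass-reduced N-body flow on an energy surface, reparametrised in time by any
smooth positive function, there is a constant `C` depending on the masses only such that every
state `(q, p)` of the orbit of every nonwandering point satisfies:

* `(∑ ⟪p_i, a_i⟫) ^ 2 ≤ C α λ` for all vectors with `|a_i| ≤ α`, `|a_i - a_j| ≤ λ |q_i - q_j|`;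
* the size `ρ`, `ρ ^ 2 = ∑ m_i |q_i| ^ 2`, changes at most at the parabolic rate: `ρ ^ (3/2)`
  changes by at most `C` times the elapsed Newtonian time;
* the virial theorem: the integral of `T + E` over the Newtonian time `τ` is at most
  `C (ρ ^ (1/2) + |τ| ^ (1/3))`, where `T` is the kinetic energy;
* the energy `H_A` of every subsystem `A` at distance at least `d` from the remaining bodies
  satisfies `E - C / d ≤ H_A ≤ C / d`.
-/

set_option autoImplicit false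
open Topology
open scoped RealInnerProductSpace

namespace Pool.Agent.Results.MP_70f7a7_an.NonwanderingBounds

theorem result :
    ∀ (N : ℕ) (m : Fin N → ℝ), (∀ i, 0 < m i) → ∃ C : ℝ, 0 < C ∧
      ∀ (E : ℝ)
        (S : Set ((Fin N → EuclideanSpace ℝ (Fin 3)) × (Fin N → EuclideanSpace ℝ (Fin 3)))),
      S = {x : (Fin N → EuclideanSpace ℝ (Fin 3)) × (Fin N → EuclideanSpace ℝ (Fin 3)) |
            (∀ i j, i ≠ j → x.1 i ≠ x.1 j) ∧ ∑ i, m i • x.1 i = 0 ∧ ∑ i, x.2 i = 0 ∧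
            ∑ i, ‖x.2 i‖ ^ 2 / (2 * m i) - ∑ i, ∑ j, m i * m j / ‖x.1 i - x.1 j‖ / 2 = E} →
      ∀ (ψ : (Fin N → EuclideanSpace ℝ (Fin 3)) × (Fin N → EuclideanSpace ℝ (Fin 3)) → ℝ)
        (φ : ℝ → (Fin N → EuclideanSpace ℝ (Fin 3)) × (Fin N → EuclideanSpace ℝ (Fin 3)) →
              (Fin N → EuclideanSpace ℝ (Fin 3)) × (Fin N → EuclideanSpace ℝ (Fin 3))),
      ContDiffOn ℝ ((⊤ : ℕ∞) : WithTop ℕ∞) ψ
        {x : (Fin N → EuclideanSpace ℝ (Fin 3)) × (Fin N → EuclideanSpace ℝ (Fin 3)) |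
          ∀ i j, i ≠ j → x.1 i ≠ x.1 j} →
      (∀ x : (Fin N → EuclideanSpace ℝ (Fin 3)) × (Fin N → EuclideanSpace ℝ (Fin 3)),
        (∀ i j, i ≠ j → x.1 i ≠ x.1 j) → 0 < ψ x) →
      (∀ x ∈ S, φ 0 x = x ∧ ∀ t : ℝ, φ t x ∈ S ∧
        HasDerivAt (fun s : ℝ => φ s x)
          (ψ (φ t x) • ((fun i => (m i)⁻¹ • (φ t x).2 i),
            (fun i => ∑ j, (m i * m j / ‖(φ t x).1 j - (φ t x).1 i‖ ^ 3) •
              ((φ t x).1 j - (φ t x).1 i)))) t) →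
      ∀ x ∈ S,
        -- `x` is nonwandering
        (¬ ∃ V : Set ((Fin N → EuclideanSpace ℝ (Fin 3)) × (Fin N → EuclideanSpace ℝ (Fin 3))),
          IsOpen V ∧ x ∈ V ∧ ∃ T : ℝ, ∀ t : ℝ, T < t → ∀ y ∈ V ∩ S, φ t y ∉ V) →
        ∀ t : ℝ,
          -- (1)
          (∀ (a : Fin N → EuclideanSpace ℝ (Fin 3)) (al la : ℝ), 0 ≤ al → 0 ≤ la →
            (∀ i, ‖a i‖ ≤ al) → (∀ i j, ‖a i - a j‖ ≤ la * ‖(φ t x).1 i - (φ t x).1 j‖) →
            (∑ i, ⟪(φ t x).2 i, a i⟫) ^ 2 ≤ C * al * la) ∧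
          -- (2)
          |(∑ i, m i * ‖(φ t x).1 i‖ ^ 2) ^ (3 / 4 : ℝ)
            - (∑ i, m i * ‖x.1 i‖ ^ 2) ^ (3 / 4 : ℝ)| ≤ C * |∫ r in (0 : ℝ)..t, ψ (φ r x)| ∧
          -- (3)
          |∫ r in (0 : ℝ)..t, (∑ i, ‖(φ r x).2 i‖ ^ 2 / (2 * m i) + E) * ψ (φ r x)| ≤
            C * ((∑ i, m i * ‖x.1 i‖ ^ 2) ^ (1 / 4 : ℝ) +
              |∫ r in (0 : ℝ)..t, ψ (φ r x)| ^ (1 / 3 : ℝ)) ∧
          -- (4)
          ∀ (A : Finset (Fin N)) (d : ℝ), 0 < d →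
            (∀ i ∈ A, ∀ j ∉ A, d ≤ ‖(φ t x).1 i - (φ t x).1 j‖) →
            E - C / d ≤ ∑ i ∈ A, ‖(φ t x).2 i‖ ^ 2 / (2 * m i) -
              ∑ i ∈ A, ∑ j ∈ A, m i * m j / ‖(φ t x).1 i - (φ t x).1 j‖ / 2 ∧
            ∑ i ∈ A, ‖(φ t x).2 i‖ ^ 2 / (2 * m i) -
              ∑ i ∈ A, ∑ j ∈ A, m i * m j / ‖(φ t x).1 i - (φ t x).1 j‖ / 2 ≤ C / d := by
  intro N m hm
  obtain ⟨C₁, hC₁, H₁⟩ := Pool.Agent.NBody.field_of_nonwandering N m hm
  obtain ⟨C₂, hC₂, H₂⟩ := Pool.Agent.NBody.growth_of_nonwandering N m hm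
  obtain ⟨C₃, hC₃, H₃⟩ := Pool.Agent.NBody.virial_of_nonwandering N m hm
  obtain ⟨C₄, hC₄, H₄⟩ := Pool.Agent.NBody.energy_of_nonwandering N m hm
  refine ⟨C₁ + C₂ + C₃ + C₄, by positivity, ?_⟩
  intro E S hS ψ φ hψ hψpos hφ x hx hnw t
  have hset : Pool.Agent.NBody.Setting m S ψ φ :=
    { sub := fun y hy => by rw [hS] at hy; exact hy.1
      mom := fun y hy => by rw [hS] at hy; exact hy.2.2.1
      com := fun y hy => by rw [hS] at hy; exact hy.2.1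
      smooth := hψ.of_le (by exact_mod_cast le_top)
      pos := hψpos
      flow := hφ }
  have hE : ∀ y ∈ S, ∑ i, ‖y.2 i‖ ^ 2 / (2 * m i) -
      ∑ i, ∑ j, m i * m j / ‖y.1 i - y.1 j‖ / 2 = E := by
    intro y hy
    rw [hS] at hy
    exact hy.2.2.2
  have hI0 : 0 ≤ ∑ i, m i * ‖x.1 i‖ ^ 2 := Finset.sum_nonneg fun i _ => by
    have := (hm i).le
    positivity
  refine ⟨?_, ?_, ?_, ?_⟩
  · intro a al la hal hla h1 h2
    refine (H₁ S ψ φ hset x hx hnw t a al la hal hla h1 h2).trans ?_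
    gcongr
    linarith
  · refine (H₂ S ψ φ hset x hx hnw t).trans ?_
    gcongr
    linarith
  · refine (H₃ E S ψ φ hset hE x hx hnw t).trans ?_
    gcongr
    linarith
  · intro A d hd hA
    obtain ⟨h1, h2⟩ := H₄ E S ψ φ hset hE x hx hnw t A d hd hA
    have h3 : C₄ / d ≤ (C₁ + C₂ + C₃ + C₄) / d := by
      gcongr
      linarith
    exact ⟨by linarith, by linarith⟩

end Pool.Agent.Results.MP_70f7a7_an.NonwanderingBounds
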