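import Mathlib
import Pool.Agent.NBody.VelFrac
import Pool.Agent.NBody.Vol9

/-!
# Nonwandering points of the N-body problem: volume, and the fraction of the velocities

`N = n + 2` bodies of given positive masses.  The nonwandering states (for some smooth positive
time change for which the flow is complete on the energy surface) of size at most `R` have finite
volume, all states of negative energy and size at most `R` have infinite volume if `N ≥ 3`, and so
have those with energy in a given interval if `N ≥ 4`.  Over every configuration `q` the fraction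
of the velocities of kinetic energy `T` for which the state is nonwandering on its energy surface
is at most `C (ρ T) ^ (-3/2)`, where `ρ` is the size of `q`.
-/

set_option autoImplicit false
set_option synthInstance.maxSize 4000
open Topology MeasureTheory

namespace Pool.Agent.Results.MP_70f7a7_an.VelocityFraction

/-- Euclidean space. -/
abbrev V : Type := EuclideanSpace ℝ (Fin 3)

/-- The kinetic energy. -/
noncomputable def kinetic {N : ℕ} (m : Fin N → ℝ) (p : Fin N → V) : ℝ :=
  ∑ i, ‖p i‖ ^ 2 / (2 * m i)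

/-- Minus the potential energy. -/
noncomputable def potential {N : ℕ} (m : Fin N → ℝ) (q : Fin N → V) : ℝ :=
  ∑ i, ∑ j, m i * m j / ‖q i - q j‖ / 2

/-- The energy. -/
noncomputable def energy {N : ℕ} (m : Fin N → ℝ) (x : (Fin N → V) × (Fin N → V)) : ℝ :=
  kinetic m x.2 - potential m x.1

/-- The size. -/
noncomputable def size {N : ℕ} (m : Fin N → ℝ) (q : Fin N → V) : ℝ :=
  Real.sqrt (∑ i, m i * ‖q i‖ ^ 2)

/-- The energy surface of the reduced problem. -/
def surface {N : ℕ} (m : Fin N → ℝ) (E : ℝ) : Set ((Fin N → V) × (Fin N → V)) :=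
  {x | (∀ i j, i ≠ j → x.1 i ≠ x.1 j) ∧ ∑ i, m i • x.1 i = 0 ∧ ∑ i, x.2 i = 0 ∧ energy m x = E}

/-- `φ` is the complete flow on the energy surface reparametrised by the smooth positive `ψ`. -/
structure Flow {N : ℕ} (m : Fin N → ℝ) (E : ℝ) (ψ : (Fin N → V) × (Fin N → V) → ℝ)
    (φ : ℝ → (Fin N → V) × (Fin N → V) → (Fin N → V) × (Fin N → V)) : Prop where
  smooth : ContDiffOn ℝ ((⊤ : ℕ∞) : WithTop ℕ∞) ψ {x | ∀ i j, i ≠ j → x.1 i ≠ x.1 j}
  pos : ∀ x : (Fin N → V) × (Fin N → V), (∀ i j, i ≠ j → x.1 i ≠ x.1 j) → 0 < ψ x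
  flow : ∀ x ∈ surface m E, φ 0 x = x ∧ ∀ t : ℝ, φ t x ∈ surface m E ∧
    HasDerivAt (fun s : ℝ => φ s x)
      (ψ (φ t x) • ((fun i => (m i)⁻¹ • (φ t x).2 i),
        (fun i => ∑ j, (m i * m j / ‖(φ t x).1 j - (φ t x).1 i‖ ^ 3) •
          ((φ t x).1 j - (φ t x).1 i)))) t

/-- The state `x` lies on its energy surface and is nonwandering there, for the flow
reparametrised by some smooth positive function making it complete. -/
def Nonwandering {N : ℕ} (m : Fin N → ℝ) (x : (Fin N → V) × (Fin N → V)) : Prop :=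
  x ∈ surface m (energy m x) ∧ ∃ ψ φ, Flow m (energy m x) ψ φ ∧
    ¬ ∃ W : Set ((Fin N → V) × (Fin N → V)), IsOpen W ∧ x ∈ W ∧
      ∃ T : ℝ, ∀ t : ℝ, T < t → ∀ y ∈ W ∩ surface m (energy m x), φ t y ∉ W

/-- The momenta of `n + 2` bodies with total momentum `0` in which the first `n + 1` bodies have
momenta `p`. -/
noncomputable def momenta {n : ℕ} (p : Fin (n + 1) → V) : Fin (n + 2) → V :=
  Fin.snoc (α := fun _ => V) p (-∑ i, p i)

/-- All momenta of kinetic energy at most `T` (and total momentum `0`). -/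
def ball {n : ℕ} (m : Fin (n + 2) → ℝ) (T : ℝ) : Set (Fin (n + 1) → V) :=
  {p | kinetic m (momenta p) ≤ T}

/-- Those whose multiple of kinetic energy `T` is nonwandering over `q`. -/
def cone {n : ℕ} (m : Fin (n + 2) → ℝ) (q : Fin (n + 2) → V) (T : ℝ) : Set (Fin (n + 1) → V) :=
  {p | kinetic m (momenta p) ≤ T ∧
    Nonwandering m (q, Real.sqrt (T / kinetic m (momenta p)) • momenta p)}

/-- The fraction of the velocities of kinetic energy `T` over `q` which are nonwandering is at
most `C / a`. -/
def FractionLe {n : ℕ} (m : Fin (n + 2) → ℝ) (q : Fin (n + 2) → V) (T a C : ℝ) : Prop :=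
  ENNReal.ofReal a * volume (cone m q T) ≤ ENNReal.ofReal C * volume (ball m T)

/-- No nontrivial combination of the indicator functions of the sets in `F` is constant. -/
def Independent {N : ℕ} (F : Finset (Finset (Fin N))) : Prop :=
  ∀ c : Finset (Fin N) → ℝ, (∀ i j, ∑ A ∈ F, (if i ∈ A then c A else 0) =
    ∑ A ∈ F, (if j ∈ A then c A else 0)) → ∀ A ∈ F, c A = 0

/-- For all `A` in `F` the bodies in `A` have distance at least `d A > 0` from the others. -/
def Apart {N : ℕ} (q : Fin N → V) (F : Finset (Finset (Fin N))) (d : Finset (Fin N) → ℝ) : Prop :=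
  ∀ A ∈ F, 0 < d A ∧ ∀ i ∈ A, ∀ j ∉ A, d A ≤ ‖q i - q j‖

/-- The state of `n + 2` bodies with centre of mass `0` and total momentum `0` in which the first
`n + 1` bodies have positions `z.1` and momenta `z.2`. -/
noncomputable def state {n : ℕ} (m : Fin (n + 2) → ℝ)
    (z : (Fin (n + 1) → V) × (Fin (n + 1) → V)) : (Fin (n + 2) → V) × (Fin (n + 2) → V) :=
  (Fin.snoc (α := fun _ => V) z.1
      (-((m (Fin.last (n + 1)))⁻¹ • ∑ i, m (Fin.castSucc i) • z.1 i)), momenta z.2)

/-- The nonwandering states with energy in `[-2e, -e]`, size at most `R` and a pair of bodies at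
distance at most `r`. -/
def closeStates {n : ℕ} (m : Fin (n + 2) → ℝ) (e R r : ℝ) :
    Set ((Fin (n + 1) → V) × (Fin (n + 1) → V)) :=
  {z | Nonwandering m (state m z) ∧ energy m (state m z) ∈ Set.Icc (-(2 * e)) (-e) ∧
    size m (state m z).1 ≤ R ∧ ∃ i j, i ≠ j ∧ ‖(state m z).1 i - (state m z).1 j‖ ≤ r}

/-- The nonwandering states of size at most `R`. -/
def nonwanderingStates {n : ℕ} (m : Fin (n + 2) → ℝ) (R : ℝ) :
    Set ((Fin (n + 1) → V) × (Fin (n + 1) → V)) :=
  {z | Nonwandering m (state m z) ∧ size m (state m z).1 ≤ R}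

/-- All states of negative energy and size at most `R`. -/
def negativeStates {n : ℕ} (m : Fin (n + 2) → ℝ) (R : ℝ) :
    Set ((Fin (n + 1) → V) × (Fin (n + 1) → V)) :=
  {z | (∀ i j, i ≠ j → (state m z).1 i ≠ (state m z).1 j) ∧ energy m (state m z) < 0 ∧
    size m (state m z).1 ≤ R}

/-- All states with energy in `[-2e, -e]` and size at most `R`. -/
def bandStates {n : ℕ} (m : Fin (n + 2) → ℝ) (e R : ℝ) :
    Set ((Fin (n + 1) → V) × (Fin (n + 1) → V)) :=
  {z | (∀ i j, i ≠ j → (state m z).1 i ≠ (state m z).1 j) ∧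
    energy m (state m z) ∈ Set.Icc (-(2 * e)) (-e) ∧ size m (state m z).1 ≤ R}

/-- The nonwandering states of size at most `R` have volume at most `C R ^ (3 (n + 1) / 2)`; all
states of negative energy and size at most `R` have infinite volume if `n ≥ 1` (at least three
bodies), all states with energy in `[-2e, -e]` and size at most `R` if `n ≥ 2` (at least four). -/
def Volumes {n : ℕ} (m : Fin (n + 2) → ℝ) (C : ℝ) : Prop :=
  (∀ R : ℝ, 0 < R →
    volume (nonwanderingStates m R) ≤ ENNReal.ofReal (C * Real.sqrt R ^ (3 * (n + 1)))) ∧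
  (1 ≤ n → ∀ R : ℝ, 0 < R → volume (negativeStates m R) = ⊤) ∧
  (2 ≤ n → ∀ e R : ℝ, 0 < e → 0 < R → volume (bandStates m e R) = ⊤)

theorem result :
    ∀ (n : ℕ) (m : Fin (n + 2) → ℝ), (∀ i, 0 < m i) → ∃ C : ℝ, 0 < C ∧
      Volumes m C ∧
      (∀ (q : Fin (n + 2) → V) (T : ℝ), 0 < T →
        FractionLe m q T (Real.sqrt (size m q * T) ^ 3) C) ∧
      (∀ (q : Fin (n + 2) → V) (E : ℝ) (i j : Fin (n + 2)), i ≠ j →
        C * |E| * ‖q i - q j‖ ≤ 1 →
        FractionLe m q (E + potential m q) (Real.sqrt (size m q / ‖q i - q j‖) ^ 3) C) ∧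
      (∀ (q : Fin (n + 2) → V) (T : ℝ), 0 < T → ∀ (F : Finset (Finset (Fin (n + 2))))
        (d : Finset (Fin (n + 2)) → ℝ), Independent F → Apart q F d →
        FractionLe m q T (∏ A ∈ F, Real.sqrt (d A * T) ^ 3) C) ∧
      (∀ e R r : ℝ, 0 < e → 0 < R → 0 < r → volume (closeStates m e R r) ≤
        ENNReal.ofReal (C * e * Real.sqrt r ^ 5 * Real.sqrt R ^ (3 * n))) := by
  intro n m hm
  obtain ⟨C₀, hC₀, H⟩ := Pool.Agent.NBody.wandering_of_momentum_orbit (n + 2) m hm
  obtain ⟨K₁, hK₁, H1⟩ := Pool.Agent.NBody.frac_size (n + 1) m hm C₀ hC₀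
  obtain ⟨K₂, hK₂, H2⟩ := Pool.Agent.NBody.frac_family (n + 1) m hm C₀ hC₀
  obtain ⟨K₃, hK₃, H3⟩ := Pool.Agent.NBody.volume_band_close n m hm C₀ hC₀
  obtain ⟨K₄, hK₄, H4⟩ := Pool.Agent.NBody.volume_momBdd_le n m hm C₀ hC₀
  have hmb : ∀ x : (Fin (n + 2) → V) × (Fin (n + 2) → V), Nonwandering m x →
      Pool.Agent.NBody.MomBdd C₀ x := by
    rintro x ⟨hx, ψ, φ, hφ, hnw⟩
    refine ⟨hx.1, ?_⟩
    intro A d hd hA
    by_contra hcon
    push Not at hcon
    have hset : Pool.Agent.NBody.Setting m (surface m (energy m x)) ψ φ :=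
      { sub := fun y hy => hy.1
        mom := fun y hy => hy.2.2.1
        com := fun y hy => hy.2.1
        smooth := hφ.smooth.of_le (by exact_mod_cast le_top)
        pos := hφ.pos
        flow := hφ.flow }
    have h0 : φ 0 x = x := (hφ.flow x hx).1
    exact hnw (H (surface m (energy m x)) ψ φ hset x hx 0 A d hd (by rw [h0]; exact hA)
      (by rw [h0]; exact hcon))
  -- the cone consists of momentum-bounded velocities
  have hcone : ∀ (q : Fin (n + 2) → V) (T : ℝ), 0 < T → cone m q T ⊆
      {p : Fin (n + 1) → V | Pool.Agent.NBody.kin m (Pool.Agent.NBody.momOf p) ≤ T ∧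
        Pool.Agent.NBody.MomBdd C₀ (q, Pool.Agent.NBody.momOf p)} := by
    rintro q T hT p ⟨h1, h2⟩
    refine ⟨h1, ?_⟩
    have h3 := hmb _ h2
    have hk0 : 0 ≤ kinetic m (momenta p) := by
      unfold kinetic
      apply Finset.sum_nonneg
      intro i _
      have := hm i
      positivity
    rcases hk0.eq_or_lt with h0 | hpos
    · -- zero momenta
      have hz : ∀ i, momenta p i = 0 := by
        intro i
        have h4 : ‖momenta p i‖ ^ 2 / (2 * m i) ≤ 0 := by
          rw [h0]
          unfold kinetic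
          exact Finset.single_le_sum (f := fun i => ‖momenta p i‖ ^ 2 / (2 * m i))
            (fun i _ => by have := hm i; positivity) (Finset.mem_univ i)
        have h5 : 0 < 2 * m i := by have := hm i; positivity
        rw [div_le_iff₀ h5, zero_mul] at h4
        have h6 : ‖momenta p i‖ = 0 := by
          have := sq_nonneg ‖momenta p i‖
          exact pow_eq_zero_iff two_ne_zero |>.mp (le_antisymm h4 this)
        exact norm_eq_zero.mp h6
      refine ⟨h3.nc, ?_⟩
      intro A d hd hA
      have h7 : ∑ i ∈ A, (q, Pool.Agent.NBody.momOf p).2 i = 0 :=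
        Finset.sum_eq_zero (fun i _ => hz i)
      rw [h7, norm_zero]
      simp only [ne_eq, OfNat.ofNat_ne_zero, not_false_eq_true, zero_pow, zero_mul]
      exact hC₀.le
    · apply Pool.Agent.NBody.MomBdd.of_scaled (l := Real.sqrt (T / kinetic m (momenta p))) _ h3
      rw [Real.one_le_sqrt, one_le_div hpos]
      exact h1
  have hempty : ∀ (q : Fin (n + 2) → V) (T : ℝ), ¬ (∑ i, m i • q i = 0) → cone m q T = ∅ := by
    intro q T hq
    rw [Set.eq_empty_iff_forall_notMem]
    rintro p ⟨_, h2⟩
    exact hq h2.1.2.1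
  have hone : ∀ (q : Fin (n + 2) → V) (T : ℝ), 0 < T →
      ENNReal.ofReal (Real.sqrt (size m q * T) ^ 3) * volume (cone m q T) ≤
        ENNReal.ofReal K₁ * volume (ball m T) := by
    intro q T hT
    by_cases hq : ∑ i, m i • q i = 0
    · calc ENNReal.ofReal (Real.sqrt (size m q * T) ^ 3) * volume (cone m q T)
          ≤ ENNReal.ofReal (Real.sqrt (size m q * T) ^ 3) *
            volume {p : Fin (n + 1) → V | Pool.Agent.NBody.kin m (Pool.Agent.NBody.momOf p) ≤ T ∧
              Pool.Agent.NBody.MomBdd C₀ (q, Pool.Agent.NBody.momOf p)} :=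
            mul_le_mul' le_rfl (measure_mono (hcone q T hT))
        _ ≤ ENNReal.ofReal K₁ * volume (ball m T) := H1 q T hT hq
    · rw [hempty q T hq, measure_empty, mul_zero]
      exact zero_le
  obtain ⟨i₀, hi₀⟩ := Finite.exists_min m
  set μ : ℝ := m i₀ with hμdef
  have hμ : 0 < μ := hm i₀
  set a : ℝ := 2 / μ ^ 2 with ha
  have hapos : 0 < a := by positivity
  refine ⟨K₁ + K₂ + K₃ + K₄ + a + Real.sqrt a ^ 3 * K₁, by positivity, ⟨?_, ?_, ?_⟩, ?_, ?_, ?_, ?_⟩
  · intro R hR
    refine le_trans (measure_mono ?_) ((H4 R hR).trans (ENNReal.ofReal_le_ofReal ?_))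
    · rintro z ⟨h1, h2⟩
      exact ⟨hmb _ h1, h2⟩
    · gcongr
      have : 0 ≤ Real.sqrt a ^ 3 * K₁ := by positivity
      linarith
  · intro hn R hR
    exact Pool.Agent.NBody.volume_negative_top n hn m hm R hR
  · intro hn e R he hR
    rw [← Pool.Agent.NBody.volume_band_top n hn m hm e R he hR]
    congr 1
    ext z
    constructor
    · rintro ⟨h1, ⟨h2, h3⟩, h4⟩
      exact ⟨h1, h2, h3, h4⟩
    · rintro ⟨h1, h2, h3, h4⟩
      exact ⟨h1, ⟨h2, h3⟩, h4⟩
  · intro q T hT
    unfold FractionLe
    refine (hone q T hT).trans ?_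
    gcongr
    have : 0 ≤ Real.sqrt a ^ 3 * K₁ := by positivity
    linarith
  · intro q E i j hij hE
    unfold FractionLe
    by_cases hcol : ∀ i j, i ≠ j → q i ≠ q j
    · have hD : 0 < ‖q i - q j‖ := norm_pos_iff.mpr (sub_ne_zero.mpr (hcol i j hij))
      set D : ℝ := ‖q i - q j‖ with hDdef
      have hU : μ ^ 2 / D ≤ potential m q := by
        refine le_trans ?_ (Pool.Agent.NBody.pot_ge_pair hm q hij)
        have h2 : μ ^ 2 ≤ m i * m j := by
          rw [sq]; exact mul_le_mul (hi₀ i) (hi₀ j) hμ.le (hm i).le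
        exact div_le_div_of_nonneg_right h2 hD.le
      have hE2 : |E| ≤ μ ^ 2 / (2 * D) := by
        have h3 : a * |E| * D ≤ 1 := by
          refine le_trans ?_ hE
          gcongr
          have : 0 ≤ Real.sqrt a ^ 3 * K₁ := by positivity
          linarith
        rw [ha] at h3
        rw [le_div_iff₀ (by positivity)]
        have h4 : 2 / μ ^ 2 * |E| * D = |E| * (2 * D) / μ ^ 2 := by ring
        rw [h4, div_le_one (by positivity)] at h3
        exact h3
      have hT : μ ^ 2 / (2 * D) ≤ E + potential m q := by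
        have h3 : μ ^ 2 / D = μ ^ 2 / (2 * D) + μ ^ 2 / (2 * D) := by field_simp; norm_num
        have h4 := neg_abs_le E
        linarith
      have hTpos : 0 < E + potential m q := lt_of_lt_of_le (by positivity) hT
      have hs0 : 0 ≤ size m q := Real.sqrt_nonneg _
      have hle : Real.sqrt (size m q / D) ^ 3 ≤
          Real.sqrt a ^ 3 * Real.sqrt (size m q * (E + potential m q)) ^ 3 := by
        rw [← mul_pow, ← Real.sqrt_mul hapos.le]
        apply pow_le_pow_left₀ (Real.sqrt_nonneg _)
        apply Real.sqrt_le_sqrt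
        calc size m q / D = a * (size m q * (μ ^ 2 / (2 * D))) := by
              rw [ha]; field_simp
          _ ≤ a * (size m q * (E + potential m q)) := by gcongr
      calc ENNReal.ofReal (Real.sqrt (size m q / D) ^ 3) *
          volume (cone m q (E + potential m q))
          ≤ ENNReal.ofReal (Real.sqrt a ^ 3 *
            Real.sqrt (size m q * (E + potential m q)) ^ 3) *
            volume (cone m q (E + potential m q)) := by gcongr
        _ = ENNReal.ofReal (Real.sqrt a ^ 3) * (ENNReal.ofReal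
            (Real.sqrt (size m q * (E + potential m q)) ^ 3) *
            volume (cone m q (E + potential m q))) := by
            rw [ENNReal.ofReal_mul (by positivity), mul_assoc]
        _ ≤ ENNReal.ofReal (Real.sqrt a ^ 3) * (ENNReal.ofReal K₁ *
            volume (ball m (E + potential m q))) := mul_le_mul' le_rfl (hone q _ hTpos)
        _ = ENNReal.ofReal (Real.sqrt a ^ 3 * K₁) *
            volume (ball m (E + potential m q)) := by
            rw [ENNReal.ofReal_mul (by positivity), mul_assoc]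
        _ ≤ _ := by
            gcongr
            linarith
    · have hemp : cone m q (E + potential m q) = ∅ := by
        rw [Set.eq_empty_iff_forall_notMem]
        rintro p ⟨_, h2⟩
        exact hcol h2.1.1
      rw [hemp, measure_empty, mul_zero]
      exact zero_le
  · intro q T hT F d hF hd
    unfold FractionLe
    calc ENNReal.ofReal (∏ A ∈ F, Real.sqrt (d A * T) ^ 3) * volume (cone m q T)
        ≤ ENNReal.ofReal (∏ A ∈ F, Real.sqrt (d A * T) ^ 3) *
          volume {p : Fin (n + 1) → V | Pool.Agent.NBody.kin m (Pool.Agent.NBody.momOf p) ≤ T ∧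
            Pool.Agent.NBody.MomBdd C₀ (q, Pool.Agent.NBody.momOf p)} :=
          mul_le_mul' le_rfl (measure_mono (hcone q T hT))
      _ ≤ ENNReal.ofReal K₂ * volume (ball m T) := H2 q T hT F hF d hd
      _ ≤ _ := by
          gcongr
          have : 0 ≤ Real.sqrt a ^ 3 * K₁ := by positivity
          linarith
  · intro e R r he hR hr
    refine le_trans (measure_mono ?_) ((H3 e R r he hR hr).trans (ENNReal.ofReal_le_ofReal ?_))
    · rintro z ⟨h1, h2, h3, h4⟩
      exact ⟨hmb _ h1, h2, h3, h4⟩
    · gcongr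
      have : 0 ≤ Real.sqrt a ^ 3 * K₁ := by positivity
      linarith

end Pool.Agent.Results.MP_70f7a7_an.VelocityFraction
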